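import Mathlib
import Pool.Agent.Helper76.ND.StE

/-!
# Project ND, module Bs (base of the iteration)
-/

set_option autoImplicit false

namespace Pool.Agent.Helper15.ND

open Pool.Agent.Helper76.ND Finset

theorem bs_f0 {B N k : ℕ} (h : S^[k] N ≤ B) : fB B N = 0 := by
  unfold fB
  rw [if_neg]
  intro h'
  exact absurd (h' k) (not_lt.2 h)

theorem bs_f1 (B N : ℕ) : fB B N ≤ 1 := by
  unfold fB
  split_ifs <;> norm_num

theorem bs_fn (B N : ℕ) : 0 ≤ fB B N := by
  unfold fB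
  split_ifs <;> norm_num

theorem bs_mu (hPo : StPo) (y : ℝ) (hy : 0 < y) (N : ℕ) :
    0 ≤ mu y N ∧ mu y N ≤ 1 / (4 * y) := by
  have h := hPo.2.1 ((N : ℝ) / y)
  unfold mu
  constructor
  · exact div_nonneg h.1 hy.le
  · rw [div_le_div_iff₀ hy (by positivity)]
    nlinarith [h.2.1]

theorem bs_half (hPo : StPo) (B : ℕ) (y : ℝ) (hy : 0 < y) : II y (fB B) ≤ 1 / 2 := by
  unfold II
  have h1 : ∀ N ∈ Icc 1 ⌊2 * y⌋₊, mu y N * fB B N ≤ 1 / (4 * y) := by
    intro N _
    have h := bs_mu hPo y hy N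
    calc mu y N * fB B N ≤ mu y N * 1 := mul_le_mul_of_nonneg_left (bs_f1 B N) h.1
      _ ≤ 1 / (4 * y) := by rw [mul_one]; exact h.2
  refine (sum_le_sum h1).trans ?_
  rw [sum_const, Nat.card_Icc, nsmul_eq_mul, Nat.add_sub_cancel]
  have h2 : ((⌊2 * y⌋₊ : ℕ) : ℝ) ≤ 2 * y := Nat.floor_le (by positivity)
  calc ((⌊2 * y⌋₊ : ℕ) : ℝ) * (1 / (4 * y)) ≤ 2 * y * (1 / (4 * y)) :=
        mul_le_mul_of_nonneg_right h2 (by positivity)
    _ = 1 / 2 := by field_simp; norm_num

/-- good numbers fall below `B` -/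
theorem bs_good (hRl : StRl) (B N t : ℕ) (y : ℝ) (hy : 1 ≤ y) (hN : 1 ≤ N)
    (hNy : (N : ℝ) ≤ 3 / 2 * y) (hB : 8 ≤ Real.log B) (hB0 : (0 : ℝ) < B)
    (hyB : Real.log y ≤ 11 / 10 * Real.log B) (ht : Real.log y / Real.log 2 - 1 ≤ t)
    (hG : Gd (Real.log y / 50) (wd t N)) : S^[t] N ≤ B := by
  have hN0 : (0 : ℝ) < N := by exact_mod_cast hN
  have hy0 : 0 < y := by linarith
  have hl2 : 0 < Real.log 2 := Real.log_pos (by norm_num)
  have hl2' : Real.log 2 < 0.7 := by have := Real.log_two_lt_d9; linarith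
  have hl3 : Real.log 3 ≤ 2 * Real.log 2 := by
    rw [← Real.log_rpow (by norm_num)]
    exact Real.log_le_log (by norm_num) (by norm_num)
  have hl3' : 8 / 5 * Real.log 2 ≥ Real.log 3 := by
    have : (5 : ℝ) * Real.log 3 ≤ 8 * Real.log 2 := by
      rw [← Real.log_rpow (by norm_num), ← Real.log_rpow (by norm_num)]
      exact Real.log_le_log (by positivity) (by norm_num)
    linarith
  have hl32 : Real.log (3 / 2) ≤ 1 / 2 := by
    have := Real.log_le_sub_one_of_pos (show (0 : ℝ) < 3 / 2 by norm_num)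
    linarith
  have hY0 : 0 ≤ Real.log y := Real.log_nonneg hy
  have hSp : 1 ≤ S^[t] N := S_iter_pos hN t
  have hS0 : (0 : ℝ) < (S^[t] N : ℕ) := by exact_mod_cast hSp
  have h1 := hRl.1 t N
  have h2 : (2 : ℝ) ^ t * (S^[t] N : ℕ) ≤ 3 ^ hd (wd t N) * N := by
    have : 2 ^ t * S^[t] N ≤ 3 ^ hd (wd t N) * N := by omega
    exact_mod_cast this
  have h3 := Real.log_le_log (by positivity) h2
  rw [Real.log_mul (by positivity) hS0.ne', Real.log_mul (by positivity) hN0.ne',
    Real.log_pow, Real.log_pow] at h3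
  have h4 : Real.log N ≤ Real.log (3 / 2) + Real.log y := by
    rw [← Real.log_mul (by norm_num) hy0.ne']
    exact Real.log_le_log hN0 hNy
  have h5 := hG t (by rw [wd_length])
  rw [wd_length, Nat.sub_self, List.drop_zero] at h5
  have h6 : (hd (wd t N) : ℝ) ≤ t / 2 + Real.log y / 50 := by
    have := (abs_le.1 h5).2
    linarith
  have hl30 : 0 < Real.log 3 := Real.log_pos (by norm_num)
  have h7 : (hd (wd t N) : ℝ) * Real.log 3 ≤ (t / 2 + Real.log y / 50) * Real.log 3 :=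
    mul_le_mul_of_nonneg_right h6 hl30.le
  -- `t (log 2 - log 3 / 2) ≥ t log 2 / 5 ≥ (log y - log 2)/5`
  have h8 : Real.log y - Real.log 2 ≤ t * Real.log 2 := by
    have := mul_le_mul_of_nonneg_right ht hl2.le
    rwa [sub_mul, div_mul_cancel₀ _ hl2.ne', one_mul] at this
  have ht0 : (0 : ℝ) ≤ t := Nat.cast_nonneg t
  have h9 : (t : ℝ) * Real.log 3 ≤ t * (8 / 5 * Real.log 2) :=
    mul_le_mul_of_nonneg_left hl3' ht0
  have h10 : Real.log y * Real.log 3 ≤ Real.log y * (14 / 10) :=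
    mul_le_mul_of_nonneg_left (by linarith) hY0
  have h11 : Real.log (S^[t] N : ℕ) ≤ Real.log B := by
    have e : ((t : ℝ) / 2 + Real.log y / 50) * Real.log 3 =
      t * Real.log 3 / 2 + Real.log y * Real.log 3 / 50 := by ring
    rw [e] at h7
    linarith
  have h12 := (Real.log_le_log_iff hS0 hB0).1 h11
  exact_mod_cast h12

theorem hBs (hRl : StRl) (hBn : StBn) (hPo : StPo) : StBs := by
  classical
  refine ⟨10 ^ 8, by norm_num, fun B y hB hy hyB => ?_⟩
  have hB1 : (1 : ℝ) < B := by exact_mod_cast (show 1 < B by omega)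
  have hB0 : (0 : ℝ) < B := by linarith
  have hb : 0 < Real.log B := Real.log_pos hB1
  have hl2 : 0 < Real.log 2 := Real.log_pos (by norm_num)
  have hl2' : Real.log 2 < 0.7 := by have := Real.log_two_lt_d9; linarith
  have hl2'' : 0.69 < Real.log 2 := by have := Real.log_two_gt_d9; linarith
  by_cases hBB : B < 6561
  · refine (bs_half hPo B y hy).trans ?_
    rw [le_div_iff₀ hb]
    have h1 : Real.log B ≤ B := (Real.log_le_sub_one_of_pos hB0).trans (by linarith)
    have h2 : (B : ℝ) < 6561 := by exact_mod_cast hBB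
    linarith
  push Not at hBB
  by_cases hyy : 2 * y ≤ B
  · have h0 : II y (fB B) = 0 := by
      unfold II
      refine sum_eq_zero fun N hN => ?_
      rw [mem_Icc] at hN
      have h1 : (N : ℝ) ≤ 2 * y := (Nat.le_floor_iff (by positivity)).1 hN.2
      have h2 : N ≤ B := by exact_mod_cast h1.trans hyy
      have h3 : fB B N = 0 := bs_f0 (k := 0) (by simpa using h2)
      rw [h3, mul_zero]
    rw [h0]
    positivity
  push Not at hyy
  have hB8 : 8 ≤ Real.log B := by
    rw [Real.le_log_iff_exp_le hB0]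
    have h1 : Real.exp 8 = Real.exp 1 ^ 8 := by
      rw [← Real.exp_nat_mul]; norm_num
    rw [h1]
    have h2 : Real.exp 1 < 3 := by have := Real.exp_one_lt_d9; linarith
    have h3 : Real.exp 1 ^ 8 ≤ 3 ^ 8 := pow_le_pow_left₀ (Real.exp_pos 1).le h2.le 8
    have h4 : (6561 : ℝ) ≤ B := by exact_mod_cast hBB
    linarith
  have hB6 : (6561 : ℝ) ≤ B := by exact_mod_cast hBB
  have hy1 : 3000 ≤ y := by linarith
  obtain ⟨Y, hY⟩ : ∃ Y : ℝ, Y = Real.log y := ⟨_, rfl⟩
  have hYB : Y ≤ 11 / 10 * Real.log B := by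
    rw [hY, ← Real.log_rpow hB0]
    exact Real.log_le_log hy hyB
  have hYb : Real.log B ≤ Y + Real.log 2 := by
    rw [hY, ← Real.log_mul hy.ne' (by norm_num)]
    exact Real.log_le_log hB0 (by linarith)
  have hY4 : Real.log B / 2 ≤ Y := by linarith
  have hY0 : 0 < Y := by linarith
  obtain ⟨t, ht⟩ : ∃ t : ℕ, t = ⌊Y / Real.log 2⌋₊ := ⟨_, rfl⟩
  have ht1 : (t : ℝ) ≤ Y / Real.log 2 := by rw [ht]; exact Nat.floor_le (by positivity)
  have ht2 : Y / Real.log 2 - 1 ≤ t := by rw [ht]; exact (Nat.sub_one_lt_floor _).le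
  have hq1 : 1 ≤ Y / Real.log 2 := by
    rw [le_div_iff₀ hl2]; linarith
  have ht3 : 1 ≤ t := by
    rw [ht]; exact Nat.le_floor (by simpa using hq1)
  have ht0 : (0 : ℝ) < t := by exact_mod_cast ht3
  have ht4 : (2 : ℝ) ^ t ≤ y := by
    have h1 : (t : ℝ) * Real.log 2 ≤ Y := by
      have := mul_le_mul_of_nonneg_right ht1 hl2.le
      rwa [div_mul_cancel₀ _ hl2.ne'] at this
    have h2 : Real.log ((2 : ℝ) ^ t) ≤ Real.log y := by rw [Real.log_pow, ← hY]; exact h1
    exact (Real.log_le_log_iff (by positivity) hy).1 h2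
  obtain ⟨n, hn⟩ : ∃ n : ℕ, n = ⌊2 * y⌋₊ := ⟨_, rfl⟩
  have hn1 : (n : ℝ) ≤ 2 * y := by rw [hn]; exact Nat.floor_le (by positivity)
  have hn2 : 2 ^ t ≤ n := by
    rw [hn]
    refine Nat.le_floor ?_
    push_cast
    linarith
  have hbn := hBn n t (Y / 50) ht3 hn2 (by positivity)
  -- reduction to the bad numbers
  have hred : II y (fB B) ≤
      (((Icc 1 n).filter (fun N => ¬ Gd (Y / 50) (wd t N))).card : ℝ) * (1 / (4 * y)) := by
    unfold II
    rw [← hn, card_eq_sum_ones]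
    push_cast
    rw [sum_filter, sum_mul]
    refine sum_le_sum fun N hN => ?_
    rw [mem_Icc] at hN
    have hm := bs_mu hPo y hy N
    split_ifs with hg
    · have hz : mu y N * fB B N = 0 := by
        by_cases hv : 3 / 2 ≤ (N : ℝ) / y
        · have h0 : mu y N = 0 := by
            unfold mu
            rw [hPo.2.2.2.1 _ hv, zero_div]
          rw [h0, zero_mul]
        · push Not at hv
          rw [div_lt_iff₀ hy] at hv
          have h1 : S^[t] N ≤ B := by
            refine bs_good hRl B N t y (by linarith) hN.1 hv.le hB8 hB0 ?_ ?_ ?_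
            · rw [← hY]; exact hYB
            · rw [← hY]; exact ht2
            · rw [← hY]; exact hg
          rw [bs_f0 h1, mul_zero]
      rw [hz]
      simp
    · calc mu y N * fB B N ≤ mu y N * 1 := mul_le_mul_of_nonneg_left (bs_f1 B N) hm.1
        _ ≤ 1 * (1 / (4 * y)) := by rw [mul_one, one_mul]; exact hm.2
  refine hred.trans ?_
  have h1 : (((Icc 1 n).filter (fun N => ¬ Gd (Y / 50) (wd t N))).card : ℝ) * (1 / (4 * y)) ≤
      2 * t * Real.exp (-(2 * (Y / 50) ^ 2 / t)) := by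
    refine (mul_le_mul_of_nonneg_right hbn (by positivity)).trans ?_
    have h2 : 4 * (n : ℝ) * t * Real.exp (-(2 * (Y / 50) ^ 2 / t)) * (1 / (4 * y)) =
        (n / y) * (t * Real.exp (-(2 * (Y / 50) ^ 2 / t))) := by
      field_simp
    have h3 : (n : ℝ) / y ≤ 2 := by rw [div_le_iff₀ hy]; exact hn1
    rw [h2]
    calc (n : ℝ) / y * (t * Real.exp (-(2 * (Y / 50) ^ 2 / t)))
        ≤ 2 * (t * Real.exp (-(2 * (Y / 50) ^ 2 / t))) :=
          mul_le_mul_of_nonneg_right h3 (by positivity)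
      _ = _ := by ring
  refine h1.trans ?_
  have ht5 : (t : ℝ) ≤ 2 * Y := by
    refine ht1.trans ?_
    rw [div_le_iff₀ hl2]
    nlinarith
  have h4 : Y / 2500 ≤ 2 * (Y / 50) ^ 2 / t := by
    rw [le_div_iff₀ ht0]
    nlinarith
  have h5 : Real.exp (-(2 * (Y / 50) ^ 2 / t)) ≤ Real.exp (-(Y / 2500)) :=
    Real.exp_le_exp.2 (by linarith)
  have h6 : (Y / 2500) ^ 2 / 2 ≤ Real.exp (Y / 2500) := by
    have := Real.quadratic_le_exp_of_nonneg (show 0 ≤ Y / 2500 by positivity)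
    nlinarith
  have h7 : Real.exp (-(Y / 2500)) ≤ 2 * 2500 ^ 2 / Y ^ 2 := by
    rw [Real.exp_neg, inv_eq_one_div, div_le_div_iff₀ (Real.exp_pos _) (by positivity)]
    nlinarith
  calc 2 * (t : ℝ) * Real.exp (-(2 * (Y / 50) ^ 2 / t))
      ≤ 2 * (2 * Y) * (2 * 2500 ^ 2 / Y ^ 2) :=
        mul_le_mul (by linarith) (h5.trans h7) (Real.exp_pos _).le (by positivity)
    _ = 8 * 2500 ^ 2 / Y := by field_simp; ring
    _ ≤ 10 ^ 8 / Real.log B := by
        rw [div_le_div_iff₀ hY0 hb]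
        nlinarith

end Pool.Agent.Helper15.ND
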