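import Mathlib
import Pool.Agent.Helper76.ND.StE

/-!
# Project ND, module Po (potential theory of the density)
-/

set_option autoImplicit false

namespace Pool.Agent.Helper15.ND

open Pool.Agent.Helper76.ND Finset

theorem po_phi1 (v : ℝ) (h0 : 0 < v) (h : v ≤ 1) : phi v = 1 := by
  unfold phi
  rw [min_eq_left]
  rw [le_div_iff₀ h0]; linarith

theorem po_phi2 (v : ℝ) (h : 1 ≤ v) : phi v = 1 / v := by
  unfold phi
  rw [min_eq_right]
  rw [div_le_iff₀ (by linarith)]; linarith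

theorem po_g1 (v : ℝ) (h : v ≤ 1 / 2) : gg v = 0 := by
  unfold gg
  rw [if_pos h]

theorem po_g2 (v : ℝ) (h : 1 / 2 ≤ v) (h' : v ≤ 1) :
    gg v = (1 / v) / 2 - (1 / v) ^ 2 / 4 := by
  rcases h.eq_or_lt with h1 | h1
  · rw [po_g1 v (by rw [← h1]), ← h1]; norm_num
  · unfold gg
    rw [if_neg (by linarith), if_pos h']
    have hv : v ≠ 0 := by
      intro h2; rw [h2] at h1; norm_num at h1
    field_simp

theorem po_g3 (v : ℝ) (h : 1 ≤ v) (h' : v ≤ 3 / 2) :
    gg v = 3 * (1 / v) ^ 2 / 4 - (1 / v) / 2 := by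
  rcases h.eq_or_lt with h1 | h1
  · rw [po_g2 v (by linarith) (by rw [← h1]), ← h1]; norm_num
  · unfold gg
    rw [if_neg (by linarith), if_neg (by linarith), if_pos h']
    have hv : v ≠ 0 := by
      intro h2; rw [h2] at h1; norm_num at h1
    field_simp

theorem po_g4 (v : ℝ) (h : 3 / 2 ≤ v) : gg v = 0 := by
  rcases h.eq_or_lt with h1 | h1
  · rw [po_g3 v (by linarith) (by rw [← h1]), ← h1]; norm_num
  · unfold gg
    rw [if_neg (by linarith), if_neg (by linarith), if_neg (by linarith)]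

/-- bounds of the inverse -/
theorem po_inv (v a b : ℝ) (ha : 0 < a) (hab : a ≤ v) (hb : v ≤ b) :
    1 / b ≤ 1 / v ∧ 1 / v ≤ 1 / a :=
  ⟨one_div_le_one_div_of_le (by linarith) hb, one_div_le_one_div_of_le ha hab⟩

theorem po_l2 (v w : ℝ) (hv : 1 / 2 ≤ v) (hvw : v ≤ w) (hw : w ≤ 1) :
    |gg v - gg w| ≤ 2 * (w - v) := by
  rw [po_g2 v hv (by linarith), po_g2 w (by linarith) hw]
  have h1 := po_inv v (1 / 2) 1 (by norm_num) hv (by linarith)
  have h2 := po_inv w (1 / 2) 1 (by norm_num) (by linarith) hw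
  have hv0 : 0 < v := by linarith
  have hw0 : 0 < w := by linarith
  obtain ⟨p, hp⟩ : ∃ p : ℝ, p = 1 / v := ⟨_, rfl⟩
  obtain ⟨r, hr⟩ : ∃ r : ℝ, r = 1 / w := ⟨_, rfl⟩
  have e1 : p * v = 1 := by rw [hp]; field_simp
  have e2 : r * w = 1 := by rw [hr]; field_simp
  rw [← hp, ← hr]
  rw [← hp] at h1
  rw [← hr] at h2
  norm_num at h1 h2
  have e3 : p - r = (w - v) * (p * r) := by
    have : (w - v) * (p * r) = p * (r * w) - r * (p * v) := by ring
    rw [this, e1, e2]; ring
  have e4 : p / 2 - p ^ 2 / 4 - (r / 2 - r ^ 2 / 4) =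
      (w - v) * ((p * r) * (1 / 2 - (p + r) / 4)) := by
    have : p / 2 - p ^ 2 / 4 - (r / 2 - r ^ 2 / 4) = (p - r) * (1 / 2 - (p + r) / 4) := by ring
    rw [this, e3]; ring
  rw [e4, abs_mul, abs_of_nonneg (by linarith : 0 ≤ w - v), mul_comm (2 : ℝ)]
  refine mul_le_mul_of_nonneg_left ?_ (by linarith)
  have h3 : p * r ≤ 4 := by nlinarith
  have h4 : 0 ≤ p * r := by nlinarith
  rw [abs_mul, abs_of_nonneg h4]
  have h5 : |1 / 2 - (p + r) / 4| ≤ 1 / 2 := by
    rw [abs_le]; constructor <;> linarith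
  calc p * r * |1 / 2 - (p + r) / 4| ≤ 4 * (1 / 2) :=
        mul_le_mul h3 h5 (abs_nonneg _) (by norm_num)
    _ = 2 := by norm_num

theorem po_l3 (v w : ℝ) (hv : 1 ≤ v) (hvw : v ≤ w) (hw : w ≤ 3 / 2) :
    |gg v - gg w| ≤ 2 * (w - v) := by
  rw [po_g3 v hv (by linarith), po_g3 w (by linarith) hw]
  have h1 := po_inv v 1 (3 / 2) (by norm_num) hv (by linarith)
  have h2 := po_inv w 1 (3 / 2) (by norm_num) (by linarith) hw
  have hv0 : 0 < v := by linarith
  have hw0 : 0 < w := by linarith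
  obtain ⟨p, hp⟩ : ∃ p : ℝ, p = 1 / v := ⟨_, rfl⟩
  obtain ⟨r, hr⟩ : ∃ r : ℝ, r = 1 / w := ⟨_, rfl⟩
  have e1 : p * v = 1 := by rw [hp]; field_simp
  have e2 : r * w = 1 := by rw [hr]; field_simp
  rw [← hp, ← hr]
  rw [← hp] at h1
  rw [← hr] at h2
  norm_num at h1 h2
  have e3 : p - r = (w - v) * (p * r) := by
    have : (w - v) * (p * r) = p * (r * w) - r * (p * v) := by ring
    rw [this, e1, e2]; ring
  have e4 : 3 * p ^ 2 / 4 - p / 2 - (3 * r ^ 2 / 4 - r / 2) =
      (w - v) * ((p * r) * (3 * (p + r) / 4 - 1 / 2)) := by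
    have : 3 * p ^ 2 / 4 - p / 2 - (3 * r ^ 2 / 4 - r / 2) =
      (p - r) * (3 * (p + r) / 4 - 1 / 2) := by ring
    rw [this, e3]; ring
  rw [e4, abs_mul, abs_of_nonneg (by linarith : 0 ≤ w - v), mul_comm (2 : ℝ)]
  refine mul_le_mul_of_nonneg_left ?_ (by linarith)
  have h3 : p * r ≤ 1 := by nlinarith
  have h4 : 0 ≤ p * r := by nlinarith
  rw [abs_mul, abs_of_nonneg h4]
  have h5 : |3 * (p + r) / 4 - 1 / 2| ≤ 1 := by
    rw [abs_le]; constructor <;> linarith
  calc p * r * |3 * (p + r) / 4 - 1 / 2| ≤ 1 * 1 :=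
        mul_le_mul h3 h5 (abs_nonneg _) (by norm_num)
    _ ≤ 2 := by norm_num

/-- glueing at the point `c` -/
theorem po_glue (P : ℝ → Prop) (c : ℝ) (hc : P c)
    (h1 : ∀ v w, P v → P w → v ≤ w → w ≤ c → |gg v - gg w| ≤ 2 * (w - v))
    (h2 : ∀ v w, P v → P w → v ≤ w → c ≤ v → |gg v - gg w| ≤ 2 * (w - v)) :
    ∀ v w, P v → P w → v ≤ w → |gg v - gg w| ≤ 2 * (w - v) := by
  intro v w hv hw hvw
  rcases le_total w c with h | h
  · exact h1 v w hv hw hvw h
  rcases le_total c v with h' | h'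
  · exact h2 v w hv hw hvw h'
  have a1 := h1 v c hv hc h' le_rfl
  have a2 := h2 c w hc hw h le_rfl
  have e : gg v - gg w = (gg v - gg c) + (gg c - gg w) := by ring
  rw [e]
  exact (abs_add_le _ _).trans (by linarith)

theorem po_lip (v w : ℝ) (hvw : v ≤ w) : |gg v - gg w| ≤ 2 * (w - v) := by
  refine po_glue (fun _ => True) 1 trivial ?_ ?_ v w trivial trivial hvw
  · intro v w _ _ hvw hw
    refine po_glue (fun x => x ≤ 1) (1 / 2) (by norm_num) ?_ ?_ v w (by linarith) hw hvw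
    · intro v w _ _ hvw hw
      rw [po_g1 v (by linarith), po_g1 w hw, sub_zero, abs_zero]
      linarith
    · intro v w _ hw1 hvw hv
      exact po_l2 v w hv hvw hw1
  · intro v w _ _ hvw hv
    refine po_glue (fun x => 1 ≤ x) (3 / 2) (by norm_num) ?_ ?_ v w hv (by linarith) hvw
    · intro v w hv1 _ hvw hw
      exact po_l3 v w hv1 hvw hw
    · intro v w _ _ hvw hv
      rw [po_g4 v hv, po_g4 w (by linarith), sub_zero, abs_zero]
      linarith

theorem hPo : StPo := by
  refine ⟨?_, ?_, ?_, ?_, ?_, ?_, ?_, ?_, ?_⟩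
  · intro v hv
    rcases le_total v (1 / 2) with h | h
    · rw [po_phi1 v hv (by linarith), po_phi1 (2 * v) (by linarith) (by linarith),
        po_phi1 (2 * v / 3) (by linarith) (by linarith), po_g1 v h]
      norm_num
    rcases le_total v 1 with h' | h'
    · rw [po_phi1 v hv h', po_phi2 (2 * v) (by linarith),
        po_phi1 (2 * v / 3) (by linarith) (by linarith), po_g2 v h h']
      field_simp
      ring
    rcases le_total v (3 / 2) with h'' | h''
    · rw [po_phi2 v h', po_phi2 (2 * v) (by linarith),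
        po_phi1 (2 * v / 3) (by linarith) (by linarith), po_g3 v h' h'']
      field_simp
      ring
    · rw [po_phi2 v h', po_phi2 (2 * v) (by linarith),
        po_phi2 (2 * v / 3) (by linarith), po_g4 v h'']
      field_simp
      ring
  · intro v
    rcases le_total v (1 / 2) with h | h
    · rw [po_g1 v h]; norm_num
    rcases le_total v 1 with h' | h'
    · rw [po_g2 v h h']
      have h1 := po_inv v (1 / 2) 1 (by norm_num) h h'
      have e1 : (1 / v) * v = 1 := by field_simp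
      have e2 : v * ((1 / v) / 2 - (1 / v) ^ 2 / 4) = 1 / 2 - (1 / v) / 4 := by
        have : v * ((1 / v) / 2 - (1 / v) ^ 2 / 4) =
          ((1 / v) * v) / 2 - (1 / v) * ((1 / v) * v) / 4 := by ring
        rw [this, e1]; ring
      rw [e2]
      norm_num at h1
      obtain ⟨p, hp⟩ : ∃ p : ℝ, p = 1 / v := ⟨_, rfl⟩
      rw [← one_div, ← hp] at h1
      rw [← hp]
      refine ⟨?_, ?_, ?_, ?_⟩
      · nlinarith [h1.1, h1.2]
      · nlinarith [sq_nonneg (p - 1)]
      · linarith [h1.2]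
      · linarith [h1.1]
    rcases le_total v (3 / 2) with h'' | h''
    · rw [po_g3 v h' h'']
      have h1 := po_inv v 1 (3 / 2) (by norm_num) h' h''
      have e1 : (1 / v) * v = 1 := by field_simp
      have e2 : v * (3 * (1 / v) ^ 2 / 4 - (1 / v) / 2) = 3 * (1 / v) / 4 - 1 / 2 := by
        have : v * (3 * (1 / v) ^ 2 / 4 - (1 / v) / 2) =
          3 * (1 / v) * ((1 / v) * v) / 4 - ((1 / v) * v) / 2 := by ring
        rw [this, e1]; ring
      rw [e2]
      norm_num at h1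
      obtain ⟨p, hp⟩ : ∃ p : ℝ, p = 1 / v := ⟨_, rfl⟩
      rw [← one_div, ← hp] at h1
      rw [← hp]
      refine ⟨?_, ?_, ?_, ?_⟩
      · nlinarith [h1.1, h1.2]
      · nlinarith [h1.1, h1.2]
      · linarith [h1.1]
      · linarith [h1.2]
    · rw [po_g4 v h'']; norm_num
  · exact po_g1
  · exact po_g4
  · intro v w
    rcases le_total v w with h | h
    · rw [abs_of_nonpos (by linarith : v - w ≤ 0)]
      have := po_lip v w h
      linarith
    · rw [abs_sub_comm, abs_of_nonneg (by linarith : 0 ≤ v - w)]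
      exact po_lip w v h
  · intro v h h'
    rcases le_total v 1 with h1 | h1
    · rw [po_g2 v (by linarith) h1]
      have h2 := po_inv v (3 / 4) 1 (by norm_num) h h1
      norm_num at h2
      obtain ⟨p, hp⟩ : ∃ p : ℝ, p = 1 / v := ⟨_, rfl⟩
      rw [← one_div, ← hp] at h2
      rw [← hp]
      nlinarith [h2.1, h2.2]
    · rw [po_g3 v h1 (by linarith)]
      have h2 := po_inv v 1 (5 / 4) (by norm_num) h1 h'
      norm_num at h2
      obtain ⟨p, hp⟩ : ∃ p : ℝ, p = 1 / v := ⟨_, rfl⟩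
      rw [← one_div, ← hp] at h2
      rw [← hp]
      nlinarith [h2.1, h2.2]
  · intro v hv
    rcases le_total v 1 with h | h
    · rw [po_phi1 v hv h]
      exact Real.one_le_rpow_of_pos_of_le_one_of_nonpos hv h (by norm_num)
    · rw [po_phi2 v h, one_div, ← Real.rpow_neg_one]
      exact Real.rpow_le_rpow_of_exponent_le h (by norm_num)
  · exact po_phi1
  · intro v hv
    unfold phi
    positivity

end Pool.Agent.Helper15.ND
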