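import Mathlib
import Pool.Agent.Helper76.ND.StD

/-!
# Project ND, module Sq
-/

set_option autoImplicit false

namespace Pool.Agent.Helper15.ND

open Pool.Agent.Helper76.ND Finset

theorem sq_tel (a y : ℝ) (ha : 1 ≤ a) (hy : 0 ≤ y) (n : ℕ) :
    ∑ j ∈ range n, 1 / (a + (y + j)) ^ 2 ≤ 1 / (a + y - 1 / 2) - 1 / (a + y + n - 1 / 2) := by
  induction n with
  | zero => simp
  | succ n ih =>
    rw [sum_range_succ]
    have hn : (0 : ℝ) ≤ n := Nat.cast_nonneg n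
    have h1 : 0 < a + y + n - 1 / 2 := by linarith
    have h2 : 0 < a + y + n + 1 / 2 := by linarith
    have h3 : 1 / (a + (y + n)) ^ 2 ≤
        1 / (a + y + n - 1 / 2) - 1 / (a + y + n + 1 / 2) := by
      rw [div_sub_div _ _ h1.ne' h2.ne', div_le_div_iff₀ (by positivity) (by positivity)]
      nlinarith
    push_cast
    have h4 : a + y + ((n : ℝ) + 1) - 1 / 2 = a + y + n + 1 / 2 := by ring
    rw [h4]
    linarith

theorem sq_tel2 (a y : ℝ) (ha : 1 ≤ a) (hy : 0 ≤ y) (n : ℕ) :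
    ∑ j ∈ range n, 1 / (a + (y + j)) ^ 2 ≤ 2 / a := by
  refine (sq_tel a y ha hy n).trans ?_
  have hn : (0 : ℝ) ≤ n := Nat.cast_nonneg n
  have h1 : 0 < a + y + n - 1 / 2 := by linarith
  have h2 : 0 ≤ 1 / (a + y + n - 1 / 2) := by positivity
  have h3 : 1 / (a + y - 1 / 2) ≤ 2 / a := by
    rw [div_le_div_iff₀ (by linarith) (by linarith)]
    linarith
  linarith

theorem sq_w (t : ℕ) (ht : 1 ≤ t) :
    ∑ k ∈ range (t + 1), 1 / (1 + ((k : ℝ) - t / 2) ^ 2 / t) ≤ 8 * Real.sqrt t := by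
  have ht0 : (1 : ℝ) ≤ t := by exact_mod_cast ht
  obtain ⟨a, ha⟩ : ∃ a : ℝ, a = Real.sqrt t := ⟨_, rfl⟩
  have ha1 : 1 ≤ a := by rw [ha]; exact Real.one_le_sqrt.2 ht0
  have ha2 : a * a = t := by rw [ha]; exact Real.mul_self_sqrt (by linarith)
  have hpt : ∀ x : ℝ, 1 / (1 + x ^ 2 / t) ≤ 2 * t * (1 / (a + |x|) ^ 2) := by
    intro x
    have h1 : 1 / (1 + x ^ 2 / t) = t / (t + x ^ 2) := by
      field_simp
    rw [h1, mul_one_div, div_le_div_iff₀ (by positivity) (by positivity)]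
    have h2 : |x| ^ 2 = x ^ 2 := sq_abs x
    have h3 : (a + |x|) ^ 2 ≤ 2 * (t + x ^ 2) := by
      rw [← h2, ← ha2]; nlinarith [sq_nonneg (a - |x|)]
    calc (t : ℝ) * (a + |x|) ^ 2 ≤ t * (2 * (t + x ^ 2)) :=
          mul_le_mul_of_nonneg_left h3 (by linarith)
      _ = 2 * t * (t + x ^ 2) := by ring
  obtain ⟨m, hm⟩ : ∃ m : ℕ, m = (t + 1) / 2 := ⟨_, rfl⟩
  have hm1 : m ≤ t + 1 := by omega
  obtain ⟨n, hn⟩ : ∃ n : ℕ, t + 1 = m + n := ⟨t + 1 - m, by omega⟩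
  have hm2 : t ≤ 2 * m := by omega
  have hm3 : 2 * m ≤ t + 1 := by omega
  have hm2' : (t : ℝ) ≤ 2 * m := by exact_mod_cast hm2
  have hm3' : 2 * (m : ℝ) ≤ t + 1 := by exact_mod_cast hm3
  have h1 : ∑ k ∈ range (t + 1), 1 / (a + |(k : ℝ) - t / 2|) ^ 2 ≤ 4 / a := by
    rw [hn, sum_range_add]
    have e1 : ∑ j ∈ range m, 1 / (a + |(j : ℝ) - t / 2|) ^ 2 =
        ∑ j ∈ range m, 1 / (a + ((t / 2 - m + 1 : ℝ) + j)) ^ 2 := by
      rw [← sum_range_reflect]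
      refine sum_congr rfl fun j hj => ?_
      rw [mem_range] at hj
      have e : ((m - 1 - j : ℕ) : ℝ) = m - 1 - j := by
        rw [Nat.cast_sub (by omega), Nat.cast_sub (by omega)]; simp
      rw [e]
      have hjm : (j : ℝ) + 1 ≤ m := by exact_mod_cast hj
      rw [abs_of_nonpos (by linarith [Nat.cast_nonneg (α := ℝ) j])]
      congr 2
      ring
    have e2 : ∑ j ∈ range n, 1 / (a + |((m + j : ℕ) : ℝ) - t / 2|) ^ 2 =
        ∑ j ∈ range n, 1 / (a + ((m - t / 2 : ℝ) + j)) ^ 2 := by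
      refine sum_congr rfl fun j _ => ?_
      have hj0 : (0 : ℝ) ≤ j := Nat.cast_nonneg j
      push_cast
      rw [abs_of_nonneg (by linarith)]
      congr 2
      ring
    rw [e1, e2]
    have b1 := sq_tel2 a (t / 2 - m + 1 : ℝ) ha1 (by linarith) m
    have b2 := sq_tel2 a (m - t / 2 : ℝ) ha1 (by linarith) n
    have : 4 / a = 2 / a + 2 / a := by ring
    rw [this]
    exact add_le_add b1 b2
  calc ∑ k ∈ range (t + 1), 1 / (1 + ((k : ℝ) - t / 2) ^ 2 / t)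
      ≤ ∑ k ∈ range (t + 1), 2 * t * (1 / (a + |(k : ℝ) - t / 2|) ^ 2) :=
        sum_le_sum fun k _ => hpt _
    _ = 2 * t * ∑ k ∈ range (t + 1), 1 / (a + |(k : ℝ) - t / 2|) ^ 2 := by rw [mul_sum]
    _ ≤ 2 * t * (4 / a) := mul_le_mul_of_nonneg_left h1 (by linarith)
    _ = 8 * Real.sqrt t := by
        rw [← ha, ← ha2]
        field_simp
        ring

theorem sq_sum (t : ℕ) : ∑ k ∈ range (t + 1), q t k = 1 := by
  unfold q
  rw [← sum_div]
  have := Nat.sum_range_choose t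
  have h : ∑ k ∈ range (t + 1), (t.choose k : ℝ) = 2 ^ t := by exact_mod_cast this
  rw [h, div_self (by positivity)]

theorem sq_var (t : ℕ) :
    ∑ k ∈ range (t + 1), q t k * ((k : ℝ) - (t : ℝ) / 2) ^ 2 = (t : ℝ) / 4 := by
  have h := bernsteinPolynomial.variance ℝ t
  have h2 := congrArg (Polynomial.eval (1 / 2 : ℝ)) h
  rw [Polynomial.eval_finsetSum] at h2
  simp only [Polynomial.eval_mul, Polynomial.eval_pow, Polynomial.eval_sub, Polynomial.eval_smul,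
    Polynomial.eval_X, Polynomial.eval_natCast, Polynomial.eval_one, bernsteinPolynomial,
    nsmul_eq_mul] at h2
  have h3 : ∀ k ∈ range (t + 1), ((t : ℝ) * (1 / 2) - k) ^ 2 *
      ((t.choose k : ℝ) * (1 / 2) ^ k * (1 - 1 / 2) ^ (t - k)) =
      q t k * ((k : ℝ) - t / 2) ^ 2 := by
    intro k hk
    rw [mem_range] at hk
    have e : ((1 : ℝ) / 2) ^ k * (1 - 1 / 2) ^ (t - k) = 1 / 2 ^ t := by
      rw [show (1 : ℝ) - 1 / 2 = 1 / 2 by norm_num, ← pow_add,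
        show k + (t - k) = t by omega, one_div_pow]
    rw [mul_assoc, e]
    unfold q
    ring
  rw [sum_congr rfl h3] at h2
  rw [h2]
  ring

theorem hSq : StSq := by
  refine ⟨4, by norm_num, fun t ht => ?_⟩
  have ht0 : (1 : ℝ) ≤ t := by exact_mod_cast ht
  obtain ⟨w, hw⟩ : ∃ w : ℕ → ℝ, ∀ k, w k = 1 + ((k : ℝ) - t / 2) ^ 2 / t := ⟨_, fun _ => rfl⟩
  have hw0 : ∀ k, 0 < w k := by
    intro k; rw [hw]; positivity
  have h1 := sum_mul_sq_le_sq_mul_sq (range (t + 1)) (fun k => Real.sqrt (q t k * w k))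
    (fun k => Real.sqrt (1 / w k))
  have e1 : ∀ k, Real.sqrt (q t k * w k) * Real.sqrt (1 / w k) = Real.sqrt (q t k) := by
    intro k
    rw [← Real.sqrt_mul (mul_nonneg (q_nonneg t k) (hw0 k).le)]
    congr 1
    have := (hw0 k).ne'
    field_simp
  have e2 : ∀ k, Real.sqrt (q t k * w k) ^ 2 = q t k * w k := fun k =>
    Real.sq_sqrt (mul_nonneg (q_nonneg t k) (hw0 k).le)
  have e3 : ∀ k, Real.sqrt (1 / w k) ^ 2 = 1 / w k := fun k =>
    Real.sq_sqrt (by have := hw0 k; positivity)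
  simp only [e1, e2, e3] at h1
  have h2 : ∑ k ∈ range (t + 1), q t k * w k = 5 / 4 := by
    have : ∀ k ∈ range (t + 1), q t k * w k =
        q t k + (q t k * ((k : ℝ) - t / 2) ^ 2) / t := by
      intro k _
      rw [hw]; ring
    rw [sum_congr rfl this, sum_add_distrib, ← sum_div, sq_sum, sq_var]
    field_simp
    norm_num
  have h3 : ∑ k ∈ range (t + 1), 1 / w k ≤ 8 * Real.sqrt t := by
    have := sq_w t ht
    simpa only [hw] using this
  rw [h2] at h1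
  have h4 : (∑ k ∈ range (t + 1), Real.sqrt (q t k)) ^ 2 ≤ (4 * (t : ℝ) ^ (1 / 4 : ℝ)) ^ 2 := by
    have e : (4 * (t : ℝ) ^ (1 / 4 : ℝ)) ^ 2 = 16 * Real.sqrt t := by
      rw [mul_pow, ← Real.rpow_natCast ((t : ℝ) ^ (1 / 4 : ℝ)) 2, ← Real.rpow_mul (by linarith),
        Real.sqrt_eq_rpow]
      norm_num
    rw [e]
    have : 0 ≤ Real.sqrt t := Real.sqrt_nonneg _
    linarith
  exact le_of_sq_le_sq h4 (by positivity)

end Pool.Agent.Helper15.ND
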